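import Pool.Agent.Helper4.AC.Types
import Pool.Agent.Helper23.AC.Basics
import Pool.Agent.Helper23.AC.PairGood

set_option autoImplicit false

namespace Pool.Agent.Helper23.AC

open Finset

theorem pair_w_le {L l r : ℕ} {y : Fn} {w : ℕ → ℝ} (hw : IsPair L l r y w) (n : ℕ) : |w n| ≤ 8 := by
  have h1 : Good 0 (Finsupp.single n (1 / 8 : ℝ)) :=
    typ_good (v := 1) (typ_single n (by rw [abs_of_pos (by norm_num)]; norm_num)) le_rfl (by norm_num)
  have h2 := hw.wnorm _ h1
  rw [pr_single, abs_mul, abs_of_pos (by norm_num : (0 : ℝ) < 1 / 8)] at h2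
  linarith

theorem b_le_of_hω {F : Finset ℕ} {b : ℕ → ℝ} {l r L : ℕ → ℕ} {δ : ℝ} (hb : ∀ s ∈ F, 0 < b s)
    (hL : ∀ s ∈ F, L s < l s ∧ l s ≤ r s)
    (hω : ∀ ω : ℕ → Fn, (∀ s ∈ F, (∀ n ∈ (ω s).support, L s < n ∧ n ≤ r s) ∧ tau (ω s) ≤ 1) →
      tau (∑ s ∈ F, b s • ω s) ≤ δ) {s : ℕ} (hs : s ∈ F) : b s ≤ δ := by
  classical
  have h := hω (fun s' => if s' = s then Finsupp.single (r s) 1 else 0) ?_
  · have e : ∑ s' ∈ F, b s' • (if s' = s then (Finsupp.single (r s) 1 : Fn) else 0) =
        b s • Finsupp.single (r s) 1 := by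
      rw [Finset.sum_eq_single s]
      · simp
      · intro s' _ hne
        rw [if_neg hne, smul_zero]
      · intro h
        exact absurd hs h
    rw [e, tau_smul, tau_single, abs_one, mul_one, abs_of_pos (hb s hs)] at h
    exact h
  · intro s' _
    by_cases h : s' = s
    · subst h
      simp only [if_true]
      refine ⟨?_, ?_⟩
      · intro n hn
        have := Finsupp.support_single_subset hn
        rw [Finset.mem_singleton] at this
        have := hL s' hs
        omega
      · rw [tau_single, abs_one]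
    · rw [if_neg h]
      refine ⟨by simp, ?_⟩
      rw [tau_zero]
      exact zero_le_one

/-- the statement of `grp_low` -/
def GrpLowStmt : Prop := ∀ {v v' Lst : ℕ}, v' < v → 1 ≤ v' → 2 * v ≤ Lst →
    ∀ {F : Finset ℕ} {b : ℕ → ℝ} {y : ℕ → Fn} {w : ℕ → ℕ → ℝ} {l r L : ℕ → ℕ},
    (∀ s ∈ F, 0 < b s) → ∑ s ∈ F, b s = 1 →
    (∀ s ∈ F, IsPair (L s) (l s) (r s) (y s) (w s)) →
    (∀ s ∈ F, Lst ≤ L s ∧ L s < l s ∧ l s ≤ r s) →
    (∀ s ∈ F, ∀ s' ∈ F, s < s' → r s < L s') →
    (∀ ω : ℕ → Fn, (∀ s ∈ F, (∀ n ∈ (ω s).support, L s < n ∧ n ≤ r s) ∧ tau (ω s) ≤ 1) →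
      tau (∑ s ∈ F, b s • ω s) ≤ 1 / (2 ^ (12 * v + 5) * bb (v - 1))) →
    ∀ {c : Fn} {g : ℕ → Fn}, Pat v' c g → ∀ π₀ : ℕ,
    (∀ π ∈ c.support, π ≠ π₀ →
      (∃ s ∈ F, ∃ n ∈ (g π).support, l s ≤ n ∧ n ≤ r s) → Lst < π) →
    ∃ S ⊆ F, |8 ^ v * ∑ s ∈ F, b s * pr (patF c g) (w s) -
      c π₀ * (8 ^ v * ∑ s ∈ S, b s * pr (g π₀) (w s))| ≤
        12 * (1 / 8 : ℝ) ^ v + 23 * 8 ^ v * (1 / 4 : ℝ) ^ Lst

theorem low_part (hGL : GrpLowStmt) {m : ℕ} {v : Fin m → ℕ} {α : Fin m → ℝ} {Lst : ℕ} {β : Fin m → ℕ → ℝ}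
    {lo hi : Fin m → ℕ} (hα : ∀ j, 0 ≤ α j) (hα1 : ∀ j, α j ≤ 1)
    (hG : ∀ j, IsGrp (v j) Lst (lo j) (hi j) (β j)) (hsep : ∀ i j, i < j → hi i < lo j)
    (hLst : ∀ j, 2 * v j ≤ Lst) {M κ : ℝ} (hκ0 : 0 ≤ κ)
    (hκ : ∀ j, 8 ^ v j * 8 * (1 / (2 ^ (12 * v j + 5) * bb (v j - 1))) ≤ κ)
    (hM : ∀ f, Good 0 f → |pr f (fun n => ∑ j, α j * β j n)| ≤ M) {v' : ℕ} (hv' : 1 ≤ v')
    {f : Fn} (hf : Typ v' f) :
    |∑ j ∈ univ.filter (fun j => v' < v j), α j * pr f (β j)| ≤
      (1 / 8 : ℝ) ^ v' * (M + κ) + ∑ j ∈ univ.filter (fun j => v' < v j),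
        α j * (12 * (1 / 8 : ℝ) ^ (v j) + 23 * 8 ^ (v j) * (1 / 4 : ℝ) ^ Lst) := by
  classical
  choose F b y w l r L hb hb1 hp hL hsepF hω hβ using hG
  obtain ⟨c, g, hP, rfl⟩ := hf
  set J := univ.filter (fun j => v' < v j) with hJ
  have hM0 : 0 ≤ M := (abs_nonneg _).trans (hM 0 (good_zero 0))
  -- the first touching position
  set touch : ℕ → Prop := fun π => ∃ j ∈ J, ∃ s ∈ F j, ∃ n ∈ (g π).support, l j s ≤ n ∧ n ≤ r j s
    with htouch
  obtain ⟨π₀, hπ₀⟩ : ∃ π₀, ∀ π ∈ c.support, π ≠ π₀ → touch π → Lst < π := by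
    by_cases h : (c.support.filter touch).Nonempty
    · refine ⟨(c.support.filter touch).min' h, ?_⟩
      intro π hπ hne ht
      have hmem := Finset.min'_mem _ h
      set π₀ := (c.support.filter touch).min' h with hdef
      rw [Finset.mem_filter] at hmem
      obtain ⟨hc0, j, hj, s, hs, n, hn, hln, hnr⟩ := hmem
      have hle : π₀ ≤ π := Finset.min'_le _ _ (Finset.mem_filter.mpr ⟨hπ, ht⟩)
      have hlt : π₀ < π := lt_of_le_of_ne hle (Ne.symm hne)
      have h1 := hP.s2 π₀ hc0 π hπ hlt n hn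
      have h2 := hL j s hs
      omega
    · refine ⟨0, fun π hπ _ ht => ?_⟩
      exact absurd ⟨π, Finset.mem_filter.mpr ⟨hπ, ht⟩⟩ h
  have hS : ∀ j, ∃ S : Finset ℕ, S ⊆ F j ∧ (j ∈ J → |8 ^ v j * ∑ s ∈ F j, b j s * pr (patF c g) (w j s) -
      c π₀ * (8 ^ v j * ∑ s ∈ S, b j s * pr (g π₀) (w j s))| ≤
        12 * (1 / 8 : ℝ) ^ v j + 23 * 8 ^ v j * (1 / 4 : ℝ) ^ Lst) := by
    intro j
    by_cases hj : j ∈ J
    · have hvj : v' < v j := (Finset.mem_filter.mp hj).2
      obtain ⟨S, hS1, hS2⟩ := hGL hvj hv' (hLst j) (hb j) (hb1 j) (hp j)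
        (fun s hs => ⟨(hL j s hs).1, (hL j s hs).2.1, (hL j s hs).2.2.1⟩) (hsepF j) (hω j) hP π₀
        (fun π hπ hne ⟨s, hs, n, hn, h1, h2⟩ => hπ₀ π hπ hne ⟨j, hj, s, hs, n, hn, h1, h2⟩)
      exact ⟨S, hS1, fun _ => hS2⟩
    · exact ⟨∅, by simp, fun h => absurd h hj⟩
  choose S hSF hSb using hS
  have hprβ : ∀ (f : Fn) j, pr f (β j) = 8 ^ v j * ∑ s ∈ F j, b j s * pr f (w j s) := by
    intro f j
    have h1 : β j = fun n => ∑ s ∈ F j, (8 ^ v j * b j s) * w j s n := by
      funext n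
      rw [hβ j n, Finset.mul_sum]
      refine Finset.sum_congr rfl (fun s _ => ?_)
      ring
    rw [h1, pr_fsum, Finset.mul_sum]
    refine Finset.sum_congr rfl (fun s _ => ?_)
    ring
  -- the main term
  set D : ℝ := ∑ j ∈ J, α j * (8 ^ v j * ∑ s ∈ S j, b j s * pr (g π₀) (w j s)) with hD
  set a : (Σ _ : Fin m, ℕ) → ℝ := fun x => α x.1 * 8 ^ v x.1 * b x.1 x.2 with ha
  set z' : ℕ → ℝ := fun n => ∑ x ∈ J.sigma S, a x * w x.1 x.2 n with hz'
  have hDz : D = pr (g π₀) z' := by
    rw [hz', pr_fsum, Finset.sum_sigma, hD]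
    refine Finset.sum_congr rfl (fun j _ => ?_)
    rw [Finset.mul_sum, Finset.mul_sum]
    refine Finset.sum_congr rfl (fun s _ => ?_)
    rw [ha]
    ring
  have hzz : ∀ n, ∑ j, α j * β j n = ∑ x ∈ (univ : Finset (Fin m)).sigma F, a x * w x.1 x.2 n := by
    intro n
    rw [Finset.sum_sigma]
    refine Finset.sum_congr rfl (fun j _ => ?_)
    rw [hβ j n, Finset.mul_sum, Finset.mul_sum]
    refine Finset.sum_congr rfl (fun s _ => ?_)
    rw [ha]
    ring
  have hdisj : ∀ x ∈ (univ : Finset (Fin m)).sigma F, ∀ x' ∈ (univ : Finset (Fin m)).sigma F, ∀ n,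
      l x.1 x.2 ≤ n → n ≤ r x.1 x.2 → l x'.1 x'.2 ≤ n → n ≤ r x'.1 x'.2 → x = x' := by
    rintro ⟨j, s⟩ hx ⟨j', s'⟩ hx' n h1 h2 h3 h4
    rw [Finset.mem_sigma] at hx hx'
    simp only at hx hx' h1 h2 h3 h4
    have a1 := hL j s hx.2
    have a2 := hL j' s' hx'.2
    rcases lt_trichotomy j j' with h | h | h
    · have := hsep j j' h
      omega
    · subst h
      rcases lt_trichotomy s s' with h | h | h
      · have := hsepF j s hx.2 s' hx'.2 h
        omega
      · subst h
        rfl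
      · have := hsepF j s' hx'.2 s hx.2 h
        omega
    · have := hsep j' j h
      omega
  set E : Set ℕ := {n | ∃ x ∈ J.sigma S, l x.1 x.2 ≤ n ∧ n ≤ r x.1 x.2} with hE
  have hsub : J.sigma S ⊆ (univ : Finset (Fin m)).sigma F := by
    intro x hx
    rw [Finset.mem_sigma] at hx ⊢
    exact ⟨Finset.mem_univ _, hSF _ hx.2⟩
  have hw0 : ∀ x ∈ (univ : Finset (Fin m)).sigma F, ∀ n, ¬ (l x.1 x.2 ≤ n ∧ n ≤ r x.1 x.2) →
      w x.1 x.2 n = 0 := by
    intro x hx n h
    by_contra hne
    exact h ((hp x.1 x.2 (Finset.mem_sigma.mp hx).2).wsupp n hne)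
  have hEout : ∀ n ∉ E, z' n = 0 := by
    intro n hn
    rw [hz']
    apply Finset.sum_eq_zero
    intro x hx
    rw [hw0 x (hsub hx) n (fun h => hn ⟨x, hx, h⟩), mul_zero]
  have hEin : ∀ x ∈ J.sigma S, ∀ n, l x.1 x.2 ≤ n → n ≤ r x.1 x.2 →
      z' n = a x * w x.1 x.2 n ∧ ∑ j, α j * β j n = a x * w x.1 x.2 n := by
    intro x hx n h1 h2
    have hx' := hsub hx
    constructor
    · rw [hz']
      apply Finset.sum_eq_single_of_mem x hx
      intro x' hx'' hne
      rw [hw0 x' (hsub hx'') n, mul_zero]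
      intro h
      exact hne (hdisj x' (hsub hx'') x hx' n h.1 h.2 h1 h2)
    · rw [hzz n]
      apply Finset.sum_eq_single_of_mem x hx'
      intro x' hx'' hne
      rw [hw0 x' hx'' n, mul_zero]
      intro h
      exact hne (hdisj x' hx'' x hx' n h.1 h.2 h1 h2)
  have hmain : |c π₀ * D| ≤ (1 / 8 : ℝ) ^ v' * (M + κ) := by
    rw [abs_mul]
    by_cases hc : π₀ ∈ c.support
    · have hD1 : |D| ≤ M + κ := by
        rw [hDz]
        rcases hP.hg π₀ hc with ⟨n, hn⟩ | hgood
        · rw [hn, pr_single, one_mul]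
          by_cases hnE : n ∈ E
          · obtain ⟨x, hx, h1, h2⟩ := hnE
            rw [(hEin x hx n h1 h2).1]
            have hxF := (Finset.mem_sigma.mp (hsub hx)).2
            have hb2 := b_le_of_hω (hb x.1) (fun s hs => ⟨(hL x.1 s hs).2.1, (hL x.1 s hs).2.2.1⟩)
              (hω x.1) hxF
            have hw8 := pair_w_le (hp x.1 x.2 hxF) n
            have hbpos := (hb x.1 x.2 hxF).le
            have hk := hκ x.1
            have h8 : (0 : ℝ) ≤ 8 ^ v x.1 := by positivity
            have hδ0 := hbpos.trans hb2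
            set δ : ℝ := 1 / (2 ^ (12 * v x.1 + 5) * bb (v x.1 - 1)) with hδ
            have e1 : |a x| = α x.1 * 8 ^ v x.1 * b x.1 x.2 := by
              rw [ha]
              exact abs_of_nonneg (mul_nonneg (mul_nonneg (hα _) h8) hbpos)
            rw [abs_mul, e1]
            calc α x.1 * 8 ^ v x.1 * b x.1 x.2 * |w x.1 x.2 n|
                ≤ 1 * 8 ^ v x.1 * δ * 8 := by
                  have h9 := hα x.1
                  have h10 := hα1 x.1
                  gcongr
              _ = 8 ^ v x.1 * 8 * δ := by ring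
              _ ≤ M + κ := by linarith
          · rw [hEout n hnE, abs_zero]
            linarith
        · have e2 : pr (g π₀) z' = pr (res E (g π₀)) (fun n => ∑ j, α j * β j n) := by
            rw [pr_res E (z := fun n => ∑ j, α j * β j n) (z' := z')]
            · rintro n ⟨x, hx, h1, h2⟩
              have := hEin x hx n h1 h2
              rw [this.1, this.2]
            · exact hEout
          rw [e2]
          have := hM _ (good_res (good_mono (Nat.zero_le π₀) hgood) E)
          linarith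
      calc |c π₀| * |D| ≤ (1 / 8 : ℝ) ^ v' * (M + κ) := by
            have := hP.c1 π₀
            gcongr
        _ = _ := rfl
    · rw [Finsupp.notMem_support_iff] at hc
      rw [hc, abs_zero, zero_mul]
      positivity
  have hdiff : |∑ j ∈ J, α j * pr (patF c g) (β j) - c π₀ * D| ≤
      ∑ j ∈ J, α j * (12 * (1 / 8 : ℝ) ^ (v j) + 23 * 8 ^ (v j) * (1 / 4 : ℝ) ^ Lst) := by
    have e3 : ∑ j ∈ J, α j * pr (patF c g) (β j) - c π₀ * D =
        ∑ j ∈ J, α j * (8 ^ v j * ∑ s ∈ F j, b j s * pr (patF c g) (w j s) -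
          c π₀ * (8 ^ v j * ∑ s ∈ S j, b j s * pr (g π₀) (w j s))) := by
      rw [hD, Finset.mul_sum, ← Finset.sum_sub_distrib]
      refine Finset.sum_congr rfl (fun j _ => ?_)
      rw [hprβ]
      ring
    rw [e3]
    refine (Finset.abs_sum_le_sum_abs _ _).trans ?_
    refine Finset.sum_le_sum (fun j hj => ?_)
    rw [abs_mul, abs_of_nonneg (hα j)]
    exact mul_le_mul_of_nonneg_left (hSb j hj) (hα j)
  calc |∑ j ∈ J, α j * pr (patF c g) (β j)|
      = |(∑ j ∈ J, α j * pr (patF c g) (β j) - c π₀ * D) + c π₀ * D| := by ring_nf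
    _ ≤ _ := abs_add_le _ _
    _ ≤ _ := by rw [add_comm]; exact add_le_add hmain hdiff

theorem geom_tail (s : Finset ℕ) (a : ℕ) (hs : ∀ v ∈ s, a ≤ v) :
    ∑ v ∈ s, (1 / 8 : ℝ) ^ v ≤ 8 / 7 * (1 / 8 : ℝ) ^ a := by
  have h1 : ∑ v ∈ s, (1 / 8 : ℝ) ^ v = ∑ i ∈ s.image (fun v => v - a), (1 / 8 : ℝ) ^ (i + a) := by
    rw [Finset.sum_image]
    · refine Finset.sum_congr rfl (fun v hv => ?_)
      rw [Nat.sub_add_cancel (hs v hv)]
    · intro x hx y hy hxy
      have := hs x hx
      have := hs y hy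
      simp only at hxy
      omega
  rw [h1]
  simp_rw [pow_add]
  rw [← Finset.sum_mul]
  have h2 : ∑ i ∈ s.image (fun v => v - a), (1 / 8 : ℝ) ^ i ≤ 8 / 7 := by
    have := (summable_geometric_of_lt_one (by norm_num : (0 : ℝ) ≤ 1 / 8)
      (by norm_num : (1 / 8 : ℝ) < 1)).sum_le_tsum (s.image (fun v => v - a))
      (fun i _ => by positivity)
    rw [tsum_geometric_of_lt_one (by norm_num) (by norm_num)] at this
    refine this.trans ?_
    norm_num
  have h3 : (0 : ℝ) ≤ (1 / 8 : ℝ) ^ a := by positivity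
  nlinarith

/-- the middle part for one index -/
theorem mid_one (p : Fn) (hp : ∀ n, |p n| ≤ 1) (T : Finset ℕ) (u I : ℕ) (hT : ∀ v ∈ T, u ≤ v) :
    ∑ v ∈ T, |p v| * (8 ^ u * (1 / 8 : ℝ) ^ v) ≤
      ∑ i ∈ range (I + 1), (1 / 8 : ℝ) ^ i * |p (u + i)| + 8 / 7 * (1 / 8 : ℝ) ^ (I + 1) := by
  classical
  have h8 : ∀ v, u ≤ v → (8 : ℝ) ^ u * (1 / 8 : ℝ) ^ v = (1 / 8 : ℝ) ^ (v - u) := by
    intro v hv
    obtain ⟨d, rfl⟩ := Nat.exists_eq_add_of_le hv
    rw [Nat.add_sub_cancel_left, pow_add, ← mul_assoc, ← mul_pow]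
    norm_num
  have e1 : ∑ v ∈ T, |p v| * (8 ^ u * (1 / 8 : ℝ) ^ v) =
      ∑ v ∈ T, |p v| * (1 / 8 : ℝ) ^ (v - u) :=
    Finset.sum_congr rfl (fun v hv => by rw [h8 v (hT v hv)])
  rw [e1, ← Finset.sum_filter_add_sum_filter_not T (fun v => v ≤ u + I)]
  apply add_le_add
  · calc ∑ v ∈ T.filter (fun v => v ≤ u + I), |p v| * (1 / 8 : ℝ) ^ (v - u)
        ≤ ∑ v ∈ (range (I + 1)).image (fun i => u + i), |p v| * (1 / 8 : ℝ) ^ (v - u) := by
          apply Finset.sum_le_sum_of_subset_of_nonneg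
          · intro v hv
            rw [Finset.mem_filter] at hv
            have := hT v hv.1
            rw [Finset.mem_image]
            exact ⟨v - u, Finset.mem_range.mpr (by omega), by omega⟩
          · intro v _ _
            positivity
      _ = _ := by
          rw [Finset.sum_image (fun x _ y _ h => by simpa using h)]
          refine Finset.sum_congr rfl (fun i _ => ?_)
          rw [Nat.add_sub_cancel_left]
          ring
  · calc ∑ v ∈ T.filter (fun v => ¬ v ≤ u + I), |p v| * (1 / 8 : ℝ) ^ (v - u)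
        ≤ ∑ v ∈ T.filter (fun v => ¬ v ≤ u + I), 1 * (1 / 8 : ℝ) ^ (v - u) := by
          refine Finset.sum_le_sum (fun v _ => ?_)
          have := hp v
          gcongr
      _ = ∑ i ∈ (T.filter (fun v => ¬ v ≤ u + I)).image (fun v => v - u), (1 / 8 : ℝ) ^ i := by
          rw [Finset.sum_image]
          · simp
          · intro x hx y hy hxy
            rw [Finset.mem_coe, Finset.mem_filter] at hx hy
            have := hT x hx.1
            have := hT y hy.1
            simp only at hxy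
            omega
      _ ≤ _ := by
          apply geom_tail
          intro i hi
          rw [Finset.mem_image] at hi
          obtain ⟨v, hv, rfl⟩ := hi
          rw [Finset.mem_filter] at hv
          have := hT v hv.1
          omega

theorem shift_le {m : ℕ} {v : Fin m → ℕ} (hv : StrictMono v) {α : Fin m → ℝ} (hα : ∀ j, 0 ≤ α j)
    {i : ℕ} {ε : ℝ} (h : tau (∑ j, α j • (Finsupp.single (v j + i) 1 : Fn)) ≤ ε) {p : Fn}
    (hp : UB 1 p) : ∑ j, α j * |p (v j + i)| ≤ ε := by
  classical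
  set q : Fn := ∑ j, α j • (Finsupp.single (v j + i) 1 : Fn) with hq
  have h1 := hp q
  rw [one_mul] at h1
  refine le_trans ?_ (h1.trans h)
  have hsup : q.support ⊆ univ.image (fun j => v j + i) := by
    intro n hn
    by_contra hne
    apply (Finsupp.mem_support_iff.mp hn)
    rw [hq, Finsupp.finsetSum_apply]
    apply Finset.sum_eq_zero
    intro j _
    rw [Finsupp.smul_apply, Finsupp.single_apply, if_neg, smul_zero]
    rintro rfl
    exact hne (Finset.mem_image_of_mem _ (Finset.mem_univ j))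
  rw [prA_comm, prA_eq_sum hsup, Finset.sum_image]
  · apply le_of_eq
    refine Finset.sum_congr rfl (fun j _ => ?_)
    have : q (v j + i) = α j := by
      rw [hq, Finsupp.finsetSum_apply, Finset.sum_eq_single j]
      · simp
      · intro j' _ hne
        rw [Finsupp.smul_apply, Finsupp.single_apply, if_neg, smul_zero]
        intro h
        exact hne (hv.injective (by omega))
      · intro h
        exact absurd (Finset.mem_univ j) h
    rw [this, abs_of_nonneg (hα j)]
  · intro j _ j' _ h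
    exact hv.injective (by simpa using h)

theorem grp_bdd {v Lst lo hi : ℕ} {β : ℕ → ℝ} (hG : IsGrp v Lst lo hi β) {f : Fn}
    (hf : Good 0 f) : |pr f β| ≤ 8 ^ v := by
  obtain ⟨F, b, y, w, l, r, L, hb, hb1, hp, hL, hsepF, hω, hβ⟩ := hG
  have h1 : β = fun n => ∑ s ∈ F, (8 ^ v * b s) * w s n := by
    funext n
    rw [hβ n, Finset.mul_sum]
    refine Finset.sum_congr rfl (fun s _ => ?_)
    ring
  rw [h1, pr_fsum]
  refine (Finset.abs_sum_le_sum_abs _ _).trans ?_
  calc ∑ s ∈ F, |8 ^ v * b s * pr f (w s)| ≤ ∑ s ∈ F, 8 ^ v * b s * 1 := by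
        refine Finset.sum_le_sum (fun s hs => ?_)
        rw [abs_mul, abs_of_nonneg (mul_nonneg (by positivity) (hb s hs).le)]
        have := (hp s hs).wnorm f hf
        have := (hb s hs).le
        gcongr
    _ = 8 ^ v := by
        simp only [mul_one]
        rw [← Finset.mul_sum, hb1, mul_one]

/-- the estimate of one functional -/
theorem eval_one (hGL : GrpLowStmt) {m : ℕ} {v : Fin m → ℕ} (hvm : StrictMono v) {α : Fin m → ℝ} {Lst I : ℕ}
    {β : Fin m → ℕ → ℝ} {lo hi : Fin m → ℕ} {η M : ℝ} (hη : 0 < η) (hα : ∀ j, 0 ≤ α j)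
    (hα1 : ∑ j, α j = 1) (hv2 : ∀ j, 2 ≤ v j) (hv4 : ∀ j, (1 / 4 : ℝ) ^ v j ≤ η)
    (hsh : ∀ i ≤ I, tau (∑ j, α j • (Finsupp.single (v j + i) 1 : Fn)) ≤ η)
    (hI : (1 / 8 : ℝ) ^ I ≤ η)
    (hG : ∀ j, IsGrp (v j) Lst (lo j) (hi j) (β j)) (hsep : ∀ i j, i < j → hi i < lo j)
    (hLst : ∀ j, 2 * v j ≤ Lst) (hLη : ∀ j, (v j : ℝ) * 8 ^ v j * (1 / 4 : ℝ) ^ Lst ≤ η)
    (hM : ∀ f, Good 0 f → |pr f (fun n => ∑ j, α j * β j n)| ≤ M) {f : Fn} (hf : Good 0 f) :
    |pr f (fun n => ∑ j, α j * β j n)| ≤ M / 7 + 73 * η := by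
  classical
  have hM0 : 0 ≤ M := (abs_nonneg _).trans (hM 0 (good_zero 0))
  have hαle : ∀ j, α j ≤ 1 := fun j => hα1 ▸ Finset.single_le_sum (fun i _ => hα i) (Finset.mem_univ j)
  obtain ⟨p, F, hp, hF, rfl⟩ := (good_iff 0 f).mp hf
  have hpn : ∀ n, |p n| ≤ 1 := ub_coord hp
  -- weights
  have h84 : ∀ n : ℕ, (1 / 8 : ℝ) ^ n ≤ (1 / 4 : ℝ) ^ n := fun n =>
    pow_le_pow_left₀ (by norm_num) (by norm_num) n
  have hκ : ∀ j, (8 : ℝ) ^ v j * 8 * (1 / (2 ^ (12 * v j + 5) * bb (v j - 1))) ≤ η := by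
    intro j
    refine le_trans ?_ (hv4 j)
    have hbb : 1 ≤ bb (v j - 1) := by
      rw [bb]
      exact one_le_pow₀ (by norm_num)
    have h1 : (1 : ℝ) / (2 ^ (12 * v j + 5) * bb (v j - 1)) ≤ 1 / 2 ^ (12 * v j + 5) := by
      apply one_div_le_one_div_of_le (by positivity)
      have : (0 : ℝ) ≤ 2 ^ (12 * v j + 5) := by positivity
      nlinarith
    calc (8 : ℝ) ^ v j * 8 * (1 / (2 ^ (12 * v j + 5) * bb (v j - 1)))
        ≤ 8 ^ v j * 8 * (1 / 2 ^ (12 * v j + 5)) := by gcongr
      _ = (8 ^ v j * 8) / 2 ^ (12 * v j + 5) := by ring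
      _ ≤ (1 / 4 : ℝ) ^ v j := by
          rw [div_le_iff₀ (by positivity)]
          have e1 : (8 : ℝ) ^ v j = 2 ^ (3 * v j) := by rw [pow_mul]; norm_num
          have e2 : (1 / 4 : ℝ) ^ v j * 2 ^ (12 * v j + 5) = 2 ^ (10 * v j + 5) := by
            have : (2 : ℝ) ^ (12 * v j + 5) = 4 ^ v j * 2 ^ (10 * v j + 5) := by
              rw [show (4 : ℝ) = 2 ^ 2 by norm_num, ← pow_mul, ← pow_add]
              congr 1
              ring
            rw [this, ← mul_assoc, ← mul_pow]
            norm_num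
          rw [e1, e2, show (8 : ℝ) = 2 ^ 3 by norm_num, ← pow_add]
          exact pow_le_pow_right₀ (by norm_num) (by omega)
  -- the error for one j
  set e : Fin m → ℝ := fun j => 12 * (1 / 8 : ℝ) ^ (v j) + 23 * 8 ^ (v j) * (1 / 4 : ℝ) ^ Lst with he
  have he0 : ∀ j, 0 ≤ e j := fun j => by rw [he]; positivity
  have hev : ∀ j, (v j : ℝ) * e j ≤ 35 * η := by
    intro j
    have h1 : (v j : ℝ) * (1 / 8 : ℝ) ^ (v j) ≤ η := by
      refine le_trans ?_ (hv4 j)
      have h2 : (v j : ℝ) ≤ 2 ^ v j := by exact_mod_cast (Nat.lt_two_pow_self).le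
      calc (v j : ℝ) * (1 / 8 : ℝ) ^ (v j) ≤ 2 ^ v j * (1 / 8 : ℝ) ^ (v j) := by gcongr
        _ = (1 / 4 : ℝ) ^ v j := by rw [← mul_pow]; norm_num
    have h3 := hLη j
    rw [he]
    simp only
    nlinarith
  -- split of the support
  set z : ℕ → ℝ := fun n => ∑ j, α j * β j n with hz
  have hexp : pr (∑ v' ∈ p.support, p v' • F v') z =
      ∑ j, α j * pr (∑ v' ∈ p.support.filter (fun v' => Lst < v'), p v' • F v') (β j) +
      ∑ v' ∈ p.support.filter (fun v' => ¬ Lst < v'), p v' * ∑ j, α j * pr (F v') (β j) := by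
    rw [← Finset.sum_filter_add_sum_filter_not p.support (fun v' => Lst < v'), pr_add]
    congr 1
    · rw [hz, pr_fsum]
    · rw [pr_sum]
      refine Finset.sum_congr rfl (fun v' _ => ?_)
      rw [pr_smul, hz, pr_fsum]
  -- high part
  have hhigh : |∑ j, α j * pr (∑ v' ∈ p.support.filter (fun v' => Lst < v'), p v' • F v') (β j)| ≤
      24 * η := by
    refine (Finset.abs_sum_le_sum_abs _ _).trans ?_
    calc ∑ j, |α j * pr (∑ v' ∈ p.support.filter (fun v' => Lst < v'), p v' • F v') (β j)|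
        ≤ ∑ j, α j * (24 * η) := by
          refine Finset.sum_le_sum (fun j _ => ?_)
          rw [abs_mul, abs_of_nonneg (hα j)]
          apply mul_le_mul_of_nonneg_left _ (hα j)
          set pH : Fn := p.filter (fun v' => Lst < v') with hpH
          have hsup : pH.support = p.support.filter (fun v' => Lst < v') := by
            rw [hpH, Finsupp.support_filter]
          have hval : ∀ v' ∈ p.support.filter (fun v' => Lst < v'), pH v' = p v' := by
            intro v' hv'
            rw [Finset.mem_filter] at hv'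
            rw [hpH, Finsupp.filter_apply, if_pos hv'.2]
          have hubH : UB 1 pH := by
            refine ub_mono (fun n => ?_) hp
            rw [hpH, Finsupp.filter_apply]
            split_ifs
            · exact le_rfl
            · rw [abs_zero]; exact abs_nonneg _
          have h1 := grp_high (hG j) (by have := hv2 j; omega) hubH (F := F) (by
            intro v' hv'
            rw [hsup, Finset.mem_filter] at hv'
            exact ⟨hv'.2, (hF v' hv'.1).2.2⟩)
          rw [hsup, Finset.sum_congr rfl (fun v' hv' => by rw [hval v' hv'])] at h1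
          refine h1.trans ?_
          have h2 := hLη j
          have h3 := (h84 (v j)).trans (hv4 j)
          have h4 : (1 : ℝ) ≤ v j := by
            have := hv2 j
            have : 1 ≤ v j := by omega
            exact_mod_cast this
          have h5 : (0 : ℝ) ≤ 8 ^ v j * (1 / 4 : ℝ) ^ Lst := by positivity
          nlinarith
      _ = 24 * η := by rw [← Finset.sum_mul, hα1, one_mul]
  -- low part
  have hlow : ∀ v' ∈ p.support.filter (fun v' => ¬ Lst < v'),
      |∑ j, α j * pr (F v') (β j)| ≤ (1 / 8 : ℝ) ^ v' * (M + η) +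
        ∑ j ∈ univ.filter (fun j => v' < v j), α j * e j +
        ∑ j ∈ univ.filter (fun j => ¬ v' < v j), α j * (10 * 8 ^ v j * (1 / 8 : ℝ) ^ v') := by
    intro v' hv'
    rw [Finset.mem_filter] at hv'
    obtain ⟨_, h1v, hTyp⟩ := hF v' hv'.1
    rw [← Finset.sum_filter_add_sum_filter_not univ (fun j => v' < v j)]
    refine (abs_add_le _ _).trans (add_le_add ?_ ?_)
    · exact low_part hGL hα hαle hG hsep hLst hη.le hκ hM h1v hTyp
    · refine (Finset.abs_sum_le_sum_abs _ _).trans ?_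
      refine Finset.sum_le_sum (fun j _ => ?_)
      rw [abs_mul, abs_of_nonneg (hα j)]
      exact mul_le_mul_of_nonneg_left (grp_mid (hG j) h1v (by omega) hTyp) (hα j)
  set T := p.support.filter (fun v' => ¬ Lst < v') with hT
  have hT1 : ∀ v' ∈ T, 1 ≤ v' := fun v' hv' => (hF v' (Finset.mem_filter.mp hv').1).2.1
  have hlowsum : |∑ v' ∈ T, p v' * ∑ j, α j * pr (F v') (β j)| ≤
      (M + η) / 7 + 35 * η + 13 * η := by
    refine (Finset.abs_sum_le_sum_abs _ _).trans ?_
    calc ∑ v' ∈ T, |p v' * ∑ j, α j * pr (F v') (β j)|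
        ≤ ∑ v' ∈ T, |p v'| * ((1 / 8 : ℝ) ^ v' * (M + η) +
            ∑ j ∈ univ.filter (fun j => v' < v j), α j * e j +
            ∑ j ∈ univ.filter (fun j => ¬ v' < v j), α j * (10 * 8 ^ v j * (1 / 8 : ℝ) ^ v')) := by
          refine Finset.sum_le_sum (fun v' hv' => ?_)
          rw [abs_mul]
          exact mul_le_mul_of_nonneg_left (hlow v' hv') (abs_nonneg _)
      _ = ∑ v' ∈ T, |p v'| * ((1 / 8 : ℝ) ^ v' * (M + η)) +
          ∑ v' ∈ T, |p v'| * ∑ j ∈ univ.filter (fun j => v' < v j), α j * e j +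
          ∑ v' ∈ T, |p v'| *
            ∑ j ∈ univ.filter (fun j => ¬ v' < v j), α j * (10 * 8 ^ v j * (1 / 8 : ℝ) ^ v') := by
          rw [← Finset.sum_add_distrib, ← Finset.sum_add_distrib]
          refine Finset.sum_congr rfl (fun v' _ => ?_)
          ring
      _ ≤ _ := by
          refine add_le_add (add_le_add ?_ ?_) ?_
          · calc ∑ v' ∈ T, |p v'| * ((1 / 8 : ℝ) ^ v' * (M + η))
                ≤ ∑ v' ∈ T, 1 * ((1 / 8 : ℝ) ^ v' * (M + η)) := by
                  refine Finset.sum_le_sum (fun v' _ => ?_)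
                  have := hpn v'
                  gcongr
              _ = (∑ v' ∈ T, (1 / 8 : ℝ) ^ v') * (M + η) := by
                  rw [Finset.sum_mul]; simp only [one_mul]
              _ ≤ (8 / 7 * (1 / 8 : ℝ) ^ 1) * (M + η) := by
                  gcongr
                  exact geom_tail T 1 hT1
              _ = (M + η) / 7 := by ring
          · calc ∑ v' ∈ T, |p v'| * ∑ j ∈ univ.filter (fun j => v' < v j), α j * e j
                ≤ ∑ v' ∈ T, 1 * ∑ j ∈ univ.filter (fun j => v' < v j), α j * e j := by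
                  refine Finset.sum_le_sum (fun v' _ => ?_)
                  have := hpn v'
                  have h0 : 0 ≤ ∑ j ∈ univ.filter (fun j => v' < v j), α j * e j :=
                    Finset.sum_nonneg (fun j _ => mul_nonneg (hα j) (he0 j))
                  gcongr
              _ = ∑ j, ∑ v' ∈ T.filter (fun v' => v' < v j), α j * e j := by
                  simp only [one_mul, Finset.sum_filter]
                  rw [Finset.sum_comm]
              _ ≤ ∑ j, α j * (35 * η) := by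
                  refine Finset.sum_le_sum (fun j _ => ?_)
                  rw [Finset.sum_const, nsmul_eq_mul]
                  have hcard : ((T.filter (fun v' => v' < v j)).card : ℝ) ≤ v j := by
                    have : (T.filter (fun v' => v' < v j)).card ≤ (range (v j)).card :=
                      Finset.card_le_card (fun n hn => Finset.mem_range.mpr (Finset.mem_filter.mp hn).2)
                    rw [Finset.card_range] at this
                    exact_mod_cast this
                  calc ((T.filter (fun v' => v' < v j)).card : ℝ) * (α j * e j)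
                      ≤ v j * (α j * e j) := by
                        have := mul_nonneg (hα j) (he0 j)
                        gcongr
                    _ = α j * (v j * e j) := by ring
                    _ ≤ _ := mul_le_mul_of_nonneg_left (hev j) (hα j)
              _ = 35 * η := by rw [← Finset.sum_mul, hα1, one_mul]
          · calc ∑ v' ∈ T, |p v'| * ∑ j ∈ univ.filter (fun j => ¬ v' < v j),
                  α j * (10 * 8 ^ v j * (1 / 8 : ℝ) ^ v')
                = ∑ j, α j * (10 * ∑ v' ∈ T.filter (fun v' => ¬ v' < v j),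
                    |p v'| * (8 ^ v j * (1 / 8 : ℝ) ^ v')) := by
                  simp only [Finset.mul_sum, Finset.sum_filter]
                  rw [Finset.sum_comm]
                  refine Finset.sum_congr rfl (fun j _ => Finset.sum_congr rfl (fun v' _ => ?_))
                  split_ifs
                  · ring
                  · ring
              _ ≤ ∑ j, α j * (10 * (∑ i ∈ range (I + 1), (1 / 8 : ℝ) ^ i * |p (v j + i)| +
                    8 / 7 * (1 / 8 : ℝ) ^ (I + 1))) := by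
                  refine Finset.sum_le_sum (fun j _ => ?_)
                  apply mul_le_mul_of_nonneg_left _ (hα j)
                  apply mul_le_mul_of_nonneg_left _ (by norm_num)
                  apply mid_one p hpn
                  intro v' hv'
                  have := (Finset.mem_filter.mp hv').2
                  omega
              _ = 10 * (∑ i ∈ range (I + 1), (1 / 8 : ℝ) ^ i * ∑ j, α j * |p (v j + i)|) +
                    10 * (8 / 7 * (1 / 8 : ℝ) ^ (I + 1)) * ∑ j, α j := by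
                  simp only [Finset.mul_sum, mul_add]
                  rw [Finset.sum_add_distrib, Finset.sum_comm]
                  congr 1
                  · refine Finset.sum_congr rfl (fun i _ => Finset.sum_congr rfl (fun j _ => ?_))
                    ring
                  · refine Finset.sum_congr rfl (fun j _ => ?_)
                    ring
              _ ≤ 10 * ((8 / 7 * (1 / 8 : ℝ) ^ 0) * η) + 10 * (8 / 7 * (1 / 8 : ℝ) ^ (I + 1)) * 1 := by
                  rw [hα1]
                  gcongr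
                  calc ∑ i ∈ range (I + 1), (1 / 8 : ℝ) ^ i * ∑ j, α j * |p (v j + i)|
                      ≤ ∑ i ∈ range (I + 1), (1 / 8 : ℝ) ^ i * η := by
                        refine Finset.sum_le_sum (fun i hi => ?_)
                        apply mul_le_mul_of_nonneg_left _ (by positivity)
                        exact shift_le hvm hα (hsh i (by have := Finset.mem_range.mp hi; omega)) hp
                    _ = (∑ i ∈ range (I + 1), (1 / 8 : ℝ) ^ i) * η := by rw [Finset.sum_mul]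
                    _ ≤ _ := by
                        gcongr
                        exact geom_tail _ 0 (fun _ _ => Nat.zero_le _)
              _ ≤ 13 * η := by
                  rw [pow_succ]
                  linarith
  rw [hexp]
  refine (abs_add_le _ _).trans ?_
  linarith

theorem eval_groups_of (hGL : GrpLowStmt) (ε : ℝ) (hε : 0 < ε) :
    ∃ (m : ℕ) (v : Fin m → ℕ) (α : Fin m → ℝ) (Lst : ℕ), (∀ j, 2 ≤ v j) ∧ (∀ j, 0 ≤ α j) ∧
      ∑ j, α j = 1 ∧ ∀ (β : Fin m → ℕ → ℝ) (lo hi : Fin m → ℕ),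
        (∀ j, IsGrp (v j) Lst (lo j) (hi j) (β j)) → (∀ i j, i < j → hi i < lo j) →
        ∀ f, Good 0 f → pr f (fun n => ∑ j, α j * β j n) ≤ ε := by
  classical
  set η := ε / 100 with hη
  have hη0 : 0 < η := by positivity
  obtain ⟨I, hI⟩ := exists_pow_lt_of_lt_one hη0 (show (1 / 8 : ℝ) < 1 by norm_num)
  obtain ⟨v₀, hv₀⟩ := exists_pow_lt_of_lt_one hη0 (show (1 / 4 : ℝ) < 1 by norm_num)
  obtain ⟨m, v, α, hv, hvm, hα, hα1, hsh⟩ := exists_types η hη0 I (v₀ + 2)
  refine ⟨m, v, α, 2 * ∑ j, v j + v₀, fun j => by have := hv j; omega, hα, hα1, ?_⟩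
  intro β lo hi hG hsep
  set Lst := 2 * ∑ j, v j + v₀ with hLstdef
  have hvL : ∀ j, v j ≤ ∑ j, v j := fun j => Finset.single_le_sum (fun i _ => Nat.zero_le _)
    (Finset.mem_univ j)
  have hLst : ∀ j, 2 * v j + v₀ ≤ Lst := fun j => by have := hvL j; omega
  have hanti : ∀ a b : ℕ, a ≤ b → (1 / 4 : ℝ) ^ b ≤ (1 / 4 : ℝ) ^ a := fun a b h =>
    pow_le_pow_of_le_one (by norm_num) (by norm_num) h
  have hLη : ∀ j, (v j : ℝ) * 8 ^ v j * (1 / 4 : ℝ) ^ Lst ≤ η := by
    intro j
    have h2 : (v j : ℝ) ≤ 2 ^ v j := by exact_mod_cast (Nat.lt_two_pow_self).le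
    calc (v j : ℝ) * 8 ^ v j * (1 / 4 : ℝ) ^ Lst
        ≤ 2 ^ v j * 8 ^ v j * (1 / 4 : ℝ) ^ (2 * v j + v₀) := by
          have := hanti _ _ (hLst j)
          gcongr
      _ = (1 / 4 : ℝ) ^ v₀ := by
          rw [pow_add, ← mul_assoc, pow_mul, ← mul_pow, ← mul_pow]
          norm_num
      _ ≤ η := hv₀.le
  set z : ℕ → ℝ := fun n => ∑ j, α j * β j n with hz
  set A : Set ℝ := (fun f => |pr f z|) '' {f | Good 0 f} with hA
  have hAb : BddAbove A := by
    refine ⟨∑ j, α j * 8 ^ v j, ?_⟩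
    rintro _ ⟨f, hf, rfl⟩
    simp only
    rw [hz, pr_fsum]
    refine (Finset.abs_sum_le_sum_abs _ _).trans ?_
    refine Finset.sum_le_sum (fun j _ => ?_)
    rw [abs_mul, abs_of_nonneg (hα j)]
    exact mul_le_mul_of_nonneg_left (grp_bdd (hG j) hf) (hα j)
  have hMle : ∀ f, Good 0 f → |pr f z| ≤ sSup A := fun f hf => le_csSup hAb ⟨f, hf, rfl⟩
  have hone : ∀ f, Good 0 f → |pr f z| ≤ sSup A / 7 + 73 * η := fun f hf =>
    eval_one hGL hvm hη0 hα hα1 (fun j => by have := hv j; omega)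
      (fun j => (hanti v₀ (v j) (by have := hv j; omega)).trans hv₀.le) hsh hI.le hG hsep
      (fun j => by have := hLst j; omega) hLη hMle hf
  have hsup : sSup A ≤ sSup A / 7 + 73 * η := by
    apply csSup_le
    · exact ⟨_, 0, good_zero 0, rfl⟩
    · rintro _ ⟨f, hf, rfl⟩
      exact hone f hf
  intro f hf
  have h1 := hMle f hf
  have h2 := le_abs_self (pr f z)
  have h3 : sSup A ≤ ε := by
    rw [hη] at hsup
    linarith
  linarith

end Pool.Agent.Helper23.AC
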