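import Pool.Agent.Helper87.AC.Average

set_option autoImplicit false

namespace Pool.Agent.Helper23.AC

open Finset

/-- an average of types, small for all shifts by at most `I` -/
theorem exists_types (ε : ℝ) (hε : 0 < ε) (I v₀ : ℕ) :
    ∃ (m : ℕ) (v : Fin m → ℕ) (α : Fin m → ℝ), (∀ j, v₀ ≤ v j) ∧ StrictMono v ∧
      (∀ j, 0 ≤ α j) ∧ ∑ j, α j = 1 ∧
      ∀ i ≤ I, tau (∑ j, α j • (Finsupp.single (v j + i) 1 : Fn)) ≤ ε := by
  obtain ⟨k, hk⟩ := exists_pow_lt_of_lt_one (show (0 : ℝ) < ε / 4 by positivity)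
    (show (1 / 2 : ℝ) < 1 by norm_num)
  obtain ⟨F, b, hFb, hb1, -, hω⟩ := exists_average k (fun s => s * (I + 1)) (fun s => s * (I + 1) + I)
    (fun s => Nat.le_add_right _ _) (fun s => by nlinarith) v₀
  set e := F.orderIsoOfFin rfl with he
  have hsum : ∀ {M : Type} [AddCommMonoid M] (f : ℕ → M), ∑ j, f (e j) = ∑ s ∈ F, f s := by
    intro M _ f
    rw [← Finset.sum_coe_sort F f]
    exact Equiv.sum_comp e.toEquiv (fun s : F => f s)
  refine ⟨F.card, fun j => (e j : ℕ) * (I + 1), fun j => b (e j), ?_, ?_, ?_, ?_, ?_⟩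
  · intro j
    have := (hFb (e j) (e j).2).1
    nlinarith [Nat.zero_le I]
  · intro i j hij
    have : e i < e j := e.strictMono hij
    have h2 : (e i : ℕ) < (e j : ℕ) := this
    simp only
    nlinarith [Nat.zero_le I]
  · intro j
    exact (hFb (e j) (e j).2).2.le
  · rw [hsum b, hb1]
  · intro i hi
    rw [hsum (fun s => b s • (Finsupp.single (s * (I + 1) + i) 1 : Fn))]
    refine (hω (fun s => Finsupp.single (s * (I + 1) + i) 1) ?_).trans ?_
    · intro s _
      refine ⟨?_, ?_⟩
      · intro n hn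
        have := Finsupp.support_single_subset hn
        rw [Finset.mem_singleton] at this
        omega
      · rw [tau_single]
        simp
    · have : (1 / 2 : ℝ) ^ k = 1 / 2 ^ k := by rw [one_div, inv_pow, one_div]
      rw [this] at hk
      have h4 : (4 : ℝ) / 2 ^ k = 4 * (1 / 2 ^ k) := by ring
      rw [h4]
      linarith

end Pool.Agent.Helper23.AC
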